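import Pool.Agent.Q289.QW.Law
import Pool.Agent.Q289.QW.Mix

/-!
# Symmetric quasi-periodic walks: unique stationary measure, mixing (Q1 and Q2)

For every irrational `α` (in particular every Liouville `α`) and every symmetric Lipschitz (in
particular smooth) `p : 𝕋 → (0, 1)`, the chain on the circle which jumps from `y` to `y + α` with
probability `p y` and to `y - α` with probability `1 - p y` has exactly one stationary probability
measure `ν`; it is reversible, the stationary chain is mixing for the time shift, and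
`E_x φ(X_n) → ν(φ)` uniformly in the starting point `x` for every continuous `φ`.
-/

set_option autoImplicit false

namespace Pool.Agent.Results.MP_8d4b21_pr.UniqueMixing

open MeasureTheory Filter Topology ProbabilityTheory

/-- `ν` is a stationary probability measure of the chain:
`∫ (p(y) φ(y + α) + (1 - p(y)) φ(y - α)) dν = ∫ φ dν` for all continuous `φ`. -/
def Stationary (α : ℝ) (p : C(UnitAddCircle, ℝ)) (ν : Measure UnitAddCircle) : Prop :=
  IsProbabilityMeasure ν ∧ ∀ φ : C(UnitAddCircle, ℝ),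
    ∫ y, (p y * φ (y + (α : UnitAddCircle)) + (1 - p y) * φ (y - (α : UnitAddCircle))) ∂ν
      = ∫ y, φ y ∂ν

/-- The transition kernel of the chain. -/
noncomputable def kernel (α : ℝ) (p : C(UnitAddCircle, ℝ)) : Kernel UnitAddCircle UnitAddCircle :=
  Pool.Agent.Q289.QW.kern α p

/-- from `y` the chain jumps to `y + α` with probability `p y`, to `y - α` with probability
`1 - p y` -/
lemma kernel_apply (α : ℝ) (p : C(UnitAddCircle, ℝ)) (y : UnitAddCircle) :
    kernel α p y = ENNReal.ofReal (p y) • Measure.dirac (y + (α : UnitAddCircle))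
      + ENNReal.ofReal (1 - p y) • Measure.dirac (y - (α : UnitAddCircle)) := rfl

/-- the kernel of the `n`-th step, as a function of the path up to time `n`: it depends on the
last point only -/
noncomputable def steps (α : ℝ) (p : C(UnitAddCircle, ℝ)) (n : ℕ) :
    Kernel ((_i : Finset.Iic n) → UnitAddCircle) UnitAddCircle :=
  (kernel α p).comap (fun x => x ⟨n, Finset.mem_Iic.2 le_rfl⟩) (measurable_pi_apply _)

lemma steps_markov (α : ℝ) {p : C(UnitAddCircle, ℝ)} (hp : ∀ y, 0 < p y ∧ p y < 1) (n : ℕ) :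
    IsMarkovKernel (steps α p n) := Pool.Agent.Q289.QW.steps_markov α hp n

/-- The law of the chain `(X_0, X_1, ...)` on the path space if `X_0` has the law `ν`
(Ionescu-Tulcea). -/
noncomputable def chainLaw (α : ℝ) (p : C(UnitAddCircle, ℝ)) (hp : ∀ y, 0 < p y ∧ p y < 1)
    (ν : Measure UnitAddCircle) : Measure (ℕ → UnitAddCircle) :=
  haveI := steps_markov α hp
  Kernel.trajMeasure (X := fun _ => UnitAddCircle) ν (steps α p)

/-- The time shift. -/
def shift (x : ℕ → UnitAddCircle) : ℕ → UnitAddCircle := fun n => x (n + 1)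

/-- `Q` is invariant under the time shift and mixing. -/
def Mixing (Q : Measure (ℕ → UnitAddCircle)) : Prop :=
  MeasurePreserving shift Q Q ∧ ∀ A B, MeasurableSet A → MeasurableSet B →
    Tendsto (fun n => Q (A ∩ shift^[n] ⁻¹' B)) atTop (𝓝 (Q A * Q B))

open Pool.Agent.Q289.QW in
lemma marginal {α : ℝ} {p : C(UnitAddCircle, ℝ)} {ν : Measure UnitAddCircle}
    {Q : Measure (ℕ → UnitAddCircle)} (h : ChainLike α p ν Q) (n : ℕ) (φ : C(UnitAddCircle, ℝ)) :
    ∫ x, φ (x n) ∂Q = ∫ y, ((op α p) ^ n) φ y ∂ν := by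
  have h1 := h.tail (fun _ => 1) 0 n φ
  have h2 : ∀ (k : ℕ) (x : ℕ → UnitAddCircle), cyl (fun _ => 1) k x = 1 := by
    intro k x; rw [cyl_apply]; simp
  simp only [h2, one_mul, zero_add, tl_one] at h1
  rw [h1, h.init]

/-- **Symmetric quasi-periodic walks.**  Let `α` be irrational (for instance Liouville) and let
`p : 𝕋 → (0, 1)` be Lipschitz (for instance smooth) with `∫ log p = ∫ log (1 - p)`.  Then the
chain has exactly one stationary probability measure.  Each stationary probability measure `ν` is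
reversible, `E_x φ(X_n)` converges to `ν(φ)` uniformly in `x` for each continuous `φ`, and the
stationary chain is mixing. -/
theorem result (α : ℝ) (hα : Irrational α) (p : C(UnitAddCircle, ℝ))
    (hp : ∀ y, 0 < p y ∧ p y < 1) (hL : ∃ L : ℝ, ∀ x y, |p x - p y| ≤ L * dist x y)
    (hsym : ∫ y, Real.log (p y) = ∫ y, Real.log (1 - p y)) :
    (∃! ν, Stationary α p ν) ∧ ∀ ν, Stationary α p ν →
      (∀ φ : C(UnitAddCircle, ℝ),
        ∫ y, p y * φ y ∂ν = ∫ y, (1 - p y) * φ (y - (α : UnitAddCircle)) ∂ν) ∧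
      (∀ φ : C(UnitAddCircle, ℝ), ∀ ε > 0, ∃ N, ∀ n ≥ N, ∀ x,
        |∫ ω, φ (ω n) ∂(chainLaw α p hp (Measure.dirac x)) - ∫ y, φ y ∂ν| ≤ ε) ∧
      Mixing (chainLaw α p hp ν) := by
  obtain ⟨L, hL⟩ := hL
  -- the lower bound
  obtain ⟨y₁, -, hy₁⟩ := isCompact_univ.exists_isMinOn Set.univ_nonempty p.continuous.continuousOn
  obtain ⟨y₂, -, hy₂⟩ := isCompact_univ.exists_isMaxOn Set.univ_nonempty p.continuous.continuousOn
  have hlo : ∀ y, p y₁ ≤ p y := fun y => hy₁ (Set.mem_univ y)
  have hhi : ∀ y, p y ≤ p y₂ := fun y => hy₂ (Set.mem_univ y)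
  have hgood : Pool.Agent.Q289.QW.Good α p |L| (min (p y₁) (1 - p y₂)) := by
    refine ⟨hα, abs_nonneg _, lt_min (hp _).1 (by linarith [(hp y₂).2]), fun y =>
      (min_le_left _ _).trans (hlo y), fun y => ?_, fun x y => ?_, hsym⟩
    · have := min_le_right (p y₁) (1 - p y₂)
      have := hhi y
      linarith
    · exact (hL x y).trans (mul_le_mul_of_nonneg_right (le_abs_self L) dist_nonneg)
  obtain ⟨ν₀, hν₀p, hν₀, huniq, hconv⟩ := hgood.main
  have hu : ∀ ν, Stationary α p ν → ν = ν₀ := fun ν hν => huniq ν hν.1 fun φ => hν.2 φ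
  refine ⟨⟨ν₀, ⟨hν₀p, fun φ => hν₀ φ⟩, fun ν hν => hu ν hν⟩, fun ν hν => ?_⟩
  have hνν := hu ν hν
  subst hνν
  have hlaw := Pool.Agent.Q289.QW.chainLike α hp ν
  refine ⟨?_, ?_, ?_⟩
  · have hstat : Pool.Agent.Q289.QW.Stat α p (fun y => 1 - p y) ν := by
      intro φ
      have h1 := hν.2 φ
      have h2 : ∀ y, (p y * (φ (y + (α : UnitAddCircle)) - φ y)
          + (1 - p y) * (φ (y - (α : UnitAddCircle)) - φ y))
          = (p y * φ (y + (α : UnitAddCircle)) + (1 - p y) * φ (y - (α : UnitAddCircle)))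
            - φ y := fun y => by ring
      simp_rw [h2]
      rw [integral_sub (Pool.Agent.Q289.QW.intg ν (by fun_prop))
        (Pool.Agent.Q289.QW.intg ν φ.continuous), h1, sub_self]
    exact fun φ => hstat.reversible hα p.continuous (by fun_prop) (fun y => (hp y).1)
      (fun y => (hp y).2.le) (fun y => by have := (hp y).2; linarith)
      (fun y => by have := (hp y).1; linarith) hsym φ
  · intro φ ε hε
    obtain ⟨N, hN⟩ := (Metric.tendsto_atTop.1 (hconv φ)) ε hε
    refine ⟨N, fun n hn x => ?_⟩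
    have h1 : ∫ ω, φ (ω n) ∂(chainLaw α p hp (Measure.dirac x))
        = ((Pool.Agent.Q289.QW.op α p) ^ n) φ x := by
      have h2 := marginal (Pool.Agent.Q289.QW.chainLike α hp (Measure.dirac x)) n φ
      rw [integral_dirac] at h2
      exact h2
    rw [h1]
    have h3 := hN n hn
    rw [Real.dist_eq, sub_zero, abs_of_nonneg (norm_nonneg _)] at h3
    have h4 := ContinuousMap.norm_coe_le_norm (((Pool.Agent.Q289.QW.op α p) ^ n) φ
      - ContinuousMap.const _ (∫ y, φ y ∂ν)) x
    exact h4.trans h3.le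
  · have hprob := hlaw.prob
    have hinv := hlaw.invariant hν₀
    refine ⟨hinv, fun A B hA hB => ?_⟩
    exact Pool.Agent.Q289.QW.mixing_sets hinv (hlaw.mixing_continuous hconv) hA hB

end Pool.Agent.Results.MP_8d4b21_pr.UniqueMixing
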